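import Pool.Agent.MWK.Stmts

set_option autoImplicit false

namespace Pool.Agent.MWK.H16

open Pool.Agent.Helper14_MV Pool.Agent.Helper2_MV

theorem move (hswa : SwaStmt) (θ : FIC) (F : ℕ → ℕ → ℕ → Prop) (v : List ℕ)
    (hv : ∀ x, v.count x ≤ 2)
    (h : ∀ (P : List ℕ) (a b : ℕ) (Q : List ℕ), a ≠ b → P.count a ≤ 1 → P.count b ≤ 1 →
      Ag F (P ++ a :: b :: Q) v → ¬ (a ∉ P ∧ F a b (P.count b)) → ¬ (b ∉ P ∧ F b a (P.count a)) →
        RR θ (P ++ a :: b :: Q) (P ++ b :: a :: Q))
    (R : List ℕ) (c : ℕ) (v'' : List ℕ) (hv'' : v = R ++ c :: v'') (P₁ : List ℕ) :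
    ∀ Q : List ℕ, c ∉ P₁ → (∀ x, (R ++ P₁ ++ c :: Q).count x = v.count x) →
      Ag F (R ++ P₁ ++ c :: Q) v →
        RR θ (R ++ P₁ ++ c :: Q) (R ++ c :: (P₁ ++ Q)) ∧ Ag F (R ++ c :: (P₁ ++ Q)) v := by
  induction P₁ using List.reverseRecOn with
  | nil =>
    intro Q _ _ hAg
    rw [List.append_nil] at hAg ⊢
    exact ⟨RR.refl _, hAg⟩
  | append_singleton P₂ a ih =>
    intro Q hc hcnt hAg
    have hcP : c ∉ P₂ := fun hh => hc (List.mem_append_left _ hh)
    have hac : a ≠ c := fun hh => hc (by rw [hh]; simp)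
    obtain ⟨P, hP⟩ : ∃ P, P = R ++ P₂ := ⟨_, rfl⟩
    have e1 : R ++ (P₂ ++ [a]) ++ c :: Q = P ++ a :: c :: Q := by rw [hP]; simp
    have e2 : R ++ P₂ ++ c :: (a :: Q) = P ++ c :: a :: Q := by rw [hP]
    rw [e1] at hcnt hAg ⊢
    have hPa : P.count a ≤ 1 := by
      have h1 := hcnt a
      have h2 := hv a
      rw [List.count_append, List.count_cons_self] at h1
      omega
    have hPc : P.count c ≤ 1 := by
      have h1 := hcnt c
      have h2 := hv c
      rw [List.count_append, List.count_cons_of_ne hac, List.count_cons_self] at h1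
      omega
    have hRc : P.count c = R.count c := by
      rw [hP, List.count_append, List.count_eq_zero_of_not_mem hcP, Nat.add_zero]
    have hRa : R.count a ≤ P.count a := by
      rw [hP, List.count_append]
      omega
    have hα : ¬ (a ∉ P ∧ F a c (P.count c)) := by
      rintro ⟨h1, h2⟩
      have h3 := hAg.2 a c (P.count c) hPc h2
      rw [pre_split h1] at h3
      have h4 : a ∉ R := fun hh => h1 (by rw [hP]; exact List.mem_append_left _ hh)
      have h5 : pre v a = R ++ c :: pre v'' a := by
        rw [hv'', pre_append h4]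
        congr 1
        unfold pre
        rw [List.takeWhile_cons_of_pos]
        simp [Ne.symm hac]
      rw [h5, List.count_append, List.count_cons_self, hRc] at h3
      omega
    have hβ : ¬ (c ∉ P ∧ F c a (P.count a)) := by
      rintro ⟨h1, h2⟩
      have h3 := hAg.2 c a (P.count a) hPa h2
      have h4 : pre (P ++ a :: c :: Q) c = P ++ [a] := by
        have h6 : P ++ a :: c :: Q = (P ++ [a]) ++ c :: Q := by simp
        rw [h6, pre_split]
        intro hh
        rcases List.mem_append.1 hh with hh | hh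
        · exact h1 hh
        · exact hac (List.mem_singleton.1 hh).symm
      have h5 : pre v c = R := by
        rw [hv'', pre_split]
        exact fun hh => h1 (by rw [hP]; exact List.mem_append_left _ hh)
      rw [h4, h5, List.count_append, List.count_singleton_self] at h3
      omega
    have hswap := h P a c Q hac hPa hPc hAg hα hβ
    have hAg' : Ag F (P ++ c :: a :: Q) v := (hswa F P a c Q hac hα hβ).symm.trans hAg
    have hcnt' : ∀ x, (R ++ P₂ ++ c :: (a :: Q)).count x = v.count x := by
      intro x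
      rw [e2, ← hcnt x]
      exact List.Perm.count_eq (List.Perm.append_left _ (List.Perm.swap _ _ _)) x
    obtain ⟨h1, h2⟩ := ih (a :: Q) hcP hcnt' (by rw [e2]; exact hAg')
    have e3 : (P₂ ++ [a]) ++ Q = P₂ ++ a :: Q := by simp
    rw [e3]
    rw [e2] at h1
    exact ⟨θ.trans hswap h1, h2⟩

/-- **SRT** -/
theorem srt (hswa : SwaStmt) : SrtStmt := by
  intro θ F v hv h
  have key : ∀ (v' R u' : List ℕ), v = R ++ v' → Ag F (R ++ u') v →
      (∀ x, u'.count x = v'.count x) → RR θ (R ++ u') v := by
    intro v'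
    induction v' with
    | nil =>
      intro R u' hR _ hcnt
      have h1 : u' = [] := by
        rw [List.eq_nil_iff_forall_not_mem]
        intro x hx
        have h2 := hcnt x
        have h3 := List.count_pos_iff.2 hx
        rw [List.count_nil] at h2
        omega
      rw [h1, hR]
      exact RR.refl _
    | cons c v'' ih =>
      intro R u' hR hAg hcnt
      have hcu : c ∈ u' := by
        rw [← List.count_pos_iff, hcnt c, List.count_cons_self]
        omega
      obtain ⟨P₁, Q, hu, hcP⟩ := List.eq_append_cons_of_mem hcu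
      have e1 : R ++ u' = R ++ P₁ ++ c :: Q := by rw [hu]; simp
      have hcnt' : ∀ x, (R ++ P₁ ++ c :: Q).count x = v.count x := by
        intro x
        rw [← e1, hR, List.count_append, List.count_append, hcnt x]
      rw [e1] at hAg ⊢
      obtain ⟨h1, h2⟩ := move hswa θ F v hv h R c v'' hR P₁ Q hcP hcnt' hAg
      have e2 : R ++ c :: (P₁ ++ Q) = (R ++ [c]) ++ (P₁ ++ Q) := by simp
      have h3 := ih (R ++ [c]) (P₁ ++ Q) (by rw [hR]; simp) (by rw [← e2]; exact h2) (by
        intro x
        have h4 := hcnt x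
        rw [hu, List.count_append, List.count_cons, List.count_cons] at h4
        rw [List.count_append]
        omega)
      rw [← e2] at h3
      exact θ.trans h1 h3
  intro u hcnt hAg
  exact key v [] u rfl hAg hcnt

end Pool.Agent.MWK.H16
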